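import Pool.Agent.Lib.MP_b725e3_co.A2_Conc
import Pool.Agent.Lib.MP_b725e3_co.A3_H3
import Pool.Agent.Lib.MP_b725e3_co.A4_H2

set_option autoImplicit false

namespace Pool.Agent.Results.MP_b725e3_co.InfinitelyMany

/-- The closed neighbourhood `N[x]`. -/
def closedNbhd {V : Type} (G : SimpleGraph V) (x : V) : Set V := {x} ∪ {y | G.Adj x y}

/-- The closed neighbourhood `N[S]` of a set `S`. -/
def closedNbhdSet {V : Type} (G : SimpleGraph V) (S : Set V) : Set V := ⋃ s ∈ S, closedNbhd G s

/-- `X` is irredundant: `N[x] \ N[X \ {x}]` is not empty for every `x ∈ X`. -/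
def Irredundant {V : Type} (G : SimpleGraph V) (X : Set V) : Prop :=
  ∀ x ∈ X, (closedNbhd G x \ closedNbhdSet G (X \ {x})).Nonempty

/-- The lower irredundance number: the least cardinality of a maximal (under inclusion)
irredundant set. -/
noncomputable def ir {V : Type} (G : SimpleGraph V) : ℕ :=
  sInf {k | ∃ X : Set V, Maximal (Irredundant G) X ∧ X.ncard = k}

/-- The domination number: the least cardinality of a set `D` with `N[D] = V(G)`. -/
noncomputable def gamma {V : Type} (G : SimpleGraph V) : ℕ :=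
  sInf {k | ∃ D : Set V, closedNbhdSet G D = Set.univ ∧ D.ncard = k}

/-- `(ir, γ)`-perfect: `ir(H) = γ(H)` for every induced subgraph `H` (including `G`). -/
def IrGammaPerfect {V : Type} (G : SimpleGraph V) : Prop :=
  ∀ S : Set V, ir (G.induce S) = gamma (G.induce S)

/-- Minimally `(ir, γ)`-imperfect: not perfect, but `ir(H) = γ(H)` for every proper induced
subgraph `H`. -/
def MinimallyImperfect {V : Type} (G : SimpleGraph V) : Prop :=
  ¬ IrGammaPerfect G ∧ ∀ S : Set V, S ≠ Set.univ → ir (G.induce S) = gamma (G.induce S)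

open Irr56

lemma mem_cn {V : Type} (G : SimpleGraph V) (x y : V) : y ∈ closedNbhd G x ↔ (y = x ∨ G.Adj x y) := by
  simp [closedNbhd]

lemma mem_cns {V : Type} (G : SimpleGraph V) (S : Set V) (y : V) :
    y ∈ closedNbhdSet G S ↔ ∃ s ∈ S, (y = s ∨ G.Adj s y) := by
  simp only [closedNbhdSet, Set.mem_iUnion, mem_cn, exists_prop]

section bridge

variable {A V : Type} [Fintype A] [DecidableEq A] [DecidableEq V] {H : SimpleGraph A}
  {G : SimpleGraph V}

lemma irr_bridge (φ : H ↪g G) (X : Finset A) :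
    Irredundant H (X : Set A) ↔
      Irr G (Finset.univ.map φ.toEmbedding) (X.map φ.toEmbedding) := by
  have hn : ∀ a b : A, (φ b = φ a ∨ G.Adj (φ a) (φ b)) ↔ (b = a ∨ H.Adj a b) := by
    intro a b
    rw [φ.injective.eq_iff, φ.map_adj_iff]
  constructor
  · intro h v hv
    rw [Finset.mem_map] at hv
    obtain ⟨x, hx, rfl⟩ := hv
    obtain ⟨y, hy1, hy2⟩ := h x hx
    rw [mem_cn] at hy1
    rw [mem_cns] at hy2
    refine ⟨φ y, Finset.mem_map_of_mem _ (Finset.mem_univ y), (hn x y).2 hy1, ?_⟩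
    intro u hu hux hc
    rw [Finset.mem_map] at hu
    obtain ⟨z, hz, rfl⟩ := hu
    refine hy2 ⟨z, ⟨hz, ?_⟩, (hn z y).1 hc⟩
    rintro rfl
    exact hux rfl
  · intro h x hx
    obtain ⟨w, hw, hw1, hw2⟩ := h (φ x) (Finset.mem_map_of_mem _ hx)
    rw [Finset.mem_map] at hw
    obtain ⟨y, -, rfl⟩ := hw
    refine ⟨y, (mem_cn H x y).2 ((hn x y).1 hw1), ?_⟩
    rw [mem_cns]
    rintro ⟨z, ⟨hz, hzx⟩, hc⟩
    exact hw2 (φ z) (Finset.mem_map_of_mem _ hz) (fun he => hzx (φ.injective he)) ((hn z y).2 hc)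

omit [DecidableEq A] in
lemma irredundant_mono {X Y : Set A} (hXY : X ⊆ Y) (hY : Irredundant H Y) : Irredundant H X := by
  intro x hx
  obtain ⟨y, hy1, hy2⟩ := hY x (hXY hx)
  refine ⟨y, hy1, fun hc => hy2 ?_⟩
  rw [mem_cns] at hc ⊢
  obtain ⟨s, hs, hc⟩ := hc
  exact ⟨s, ⟨hXY hs.1, hs.2⟩, hc⟩

lemma max_bridge (φ : H ↪g G) (X : Finset A) :
    Maximal (Irredundant H) (X : Set A) ↔
      MaxIrr G (Finset.univ.map φ.toEmbedding) (X.map φ.toEmbedding) := by
  unfold MaxIrr
  rw [← irr_bridge]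
  constructor
  · rintro ⟨h1, h2⟩
    refine ⟨Finset.map_subset_map.2 (Finset.subset_univ _), h1, ?_⟩
    intro v hv hvX hirr
    rw [Finset.mem_map] at hv
    obtain ⟨a, -, rfl⟩ := hv
    have h3 : insert (φ.toEmbedding a) (X.map φ.toEmbedding) = (insert a X).map φ.toEmbedding := by
      rw [Finset.map_insert]
    rw [h3, ← irr_bridge] at hirr
    have h4 := h2 hirr (by
      show (X : Set A) ⊆ ((insert a X : Finset A) : Set A)
      exact_mod_cast Finset.subset_insert a X)
    apply hvX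
    apply Finset.mem_map_of_mem
    exact_mod_cast h4 (by simp : a ∈ ((insert a X : Finset A) : Set A))
  · rintro ⟨-, h1, h2⟩
    refine ⟨h1, ?_⟩
    intro Y hY hXY y hy
    by_contra hyX
    have h3 : Irredundant H ((insert y X : Finset A) : Set A) := by
      refine irredundant_mono ?_ hY
      intro z hz
      rw [Finset.coe_insert, Set.mem_insert_iff] at hz
      rcases hz with rfl | hz
      · exact hy
      · exact hXY hz
    rw [irr_bridge φ, Finset.map_insert] at h3
    refine h2 _ (Finset.mem_map_of_mem _ (Finset.mem_univ y)) ?_ h3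
    intro hc
    rw [Finset.mem_map] at hc
    obtain ⟨z, hz, hzy⟩ := hc
    have : z = y := φ.injective hzy
    subst this
    exact hyX hz

lemma dom_bridge (φ : H ↪g G) (D : Finset A) :
    closedNbhdSet H (D : Set A) = Set.univ ↔
      Dom G (Finset.univ.map φ.toEmbedding) (D.map φ.toEmbedding) := by
  have hn : ∀ a b : A, Nb G (φ a) (φ b) ↔ (b = a ∨ H.Adj a b) := by
    intro a b
    rw [Nb, φ.injective.eq_iff, φ.map_adj_iff]
  rw [dom_iff, Set.eq_univ_iff_forall]
  constructor
  · intro h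
    refine ⟨Finset.map_subset_map.2 (Finset.subset_univ _), ?_⟩
    intro v hv
    rw [Finset.mem_map] at hv
    obtain ⟨a, -, rfl⟩ := hv
    obtain ⟨s, hs, hc⟩ := (mem_cns H _ _).1 (h a)
    exact ⟨φ s, Finset.mem_map_of_mem _ hs, (hn s a).2 hc⟩
  · rintro ⟨-, h⟩ a
    obtain ⟨s, hs, hc⟩ := h (φ a) (Finset.mem_map_of_mem _ (Finset.mem_univ a))
    rw [Finset.mem_map] at hs
    obtain ⟨t, ht, rfl⟩ := hs
    exact (mem_cns H _ _).2 ⟨t, ht, (hn t a).1 hc⟩

lemma exists_preimage (φ : H ↪g G) {S : Finset V} (hS : S ⊆ Finset.univ.map φ.toEmbedding) :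
    ∃ X : Finset A, X.map φ.toEmbedding = S := by
  refine ⟨Finset.univ.filter fun a => φ.toEmbedding a ∈ S, ?_⟩
  ext v
  rw [Finset.mem_map]
  constructor
  · rintro ⟨a, ha, rfl⟩
    exact (Finset.mem_filter.1 ha).2
  · intro hv
    obtain ⟨a, -, ha⟩ := Finset.mem_map.1 (hS hv)
    refine ⟨a, ?_, ha⟩
    rw [Finset.mem_filter, ha]
    exact ⟨Finset.mem_univ a, hv⟩

lemma ir_bridge (φ : H ↪g G) :
    ir H = sInf {k | ∃ S : Finset V, MaxIrr G (Finset.univ.map φ.toEmbedding) S ∧ S.card = k} := by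
  unfold ir
  congr 1
  ext k
  constructor
  · rintro ⟨X, hX, hk⟩
    obtain ⟨X, rfl⟩ : ∃ X' : Finset A, (X' : Set A) = X := ⟨X.toFinite.toFinset, by simp⟩
    rw [Set.ncard_coe_finset] at hk
    exact ⟨X.map φ.toEmbedding, (max_bridge φ X).1 hX, by rw [Finset.card_map, hk]⟩
  · rintro ⟨S, hS, hk⟩
    obtain ⟨X, rfl⟩ := exists_preimage φ hS.1
    refine ⟨X, (max_bridge φ X).2 hS, ?_⟩
    rw [Set.ncard_coe_finset, ← hk, Finset.card_map]

lemma gamma_bridge (φ : H ↪g G) :
    gamma H = sInf {k | ∃ S : Finset V, Dom G (Finset.univ.map φ.toEmbedding) S ∧ S.card = k} := by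
  unfold gamma
  congr 1
  ext k
  constructor
  · rintro ⟨X, hX, hk⟩
    obtain ⟨X, rfl⟩ : ∃ X' : Finset A, (X' : Set A) = X := ⟨X.toFinite.toFinset, by simp⟩
    rw [Set.ncard_coe_finset] at hk
    exact ⟨X.map φ.toEmbedding, (dom_bridge φ X).1 hX, by rw [Finset.card_map, hk]⟩
  · rintro ⟨S, hS, hk⟩
    obtain ⟨X, rfl⟩ := exists_preimage φ hS.1
    refine ⟨X, (dom_bridge φ X).2 hS, ?_⟩
    rw [Set.ncard_coe_finset, ← hk, Finset.card_map]

lemma eq_of_good' (φ : H ↪g G) (h : Good G (Finset.univ.map φ.toEmbedding)) : ir H = gamma H := by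
  rw [ir_bridge φ, gamma_bridge φ]
  have h1 := eq_of_good h
  simp only [MaxIrr, Irr, Dom, and_assoc]
  exact h1

lemma bad_of (φ : H ↪g G) {X : Finset V} (hX : MaxIrr G (Finset.univ.map φ.toEmbedding) X)
    (h : ∀ D, Dom G (Finset.univ.map φ.toEmbedding) D → X.card < D.card) :
    ir H ≤ X.card ∧ X.card < gamma H := by
  rw [ir_bridge φ, gamma_bridge φ]
  refine ⟨Nat.sInf_le ⟨X, hX, rfl⟩, ?_⟩
  obtain ⟨D, hD, -⟩ := exists_min_dom G (Finset.univ.map φ.toEmbedding)
  have h1 : sInf {k | ∃ S : Finset V, Dom G (Finset.univ.map φ.toEmbedding) S ∧ S.card = k} ∈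
      {k | ∃ S : Finset V, Dom G (Finset.univ.map φ.toEmbedding) S ∧ S.card = k} :=
    Nat.sInf_mem ⟨D.card, D, hD, rfl⟩
  obtain ⟨S, hS, hk⟩ := h1
  rw [← hk]
  exact h S hS

end bridge

/-- **Negative answer to Q1: there are infinitely many minimally `(ir, γ)`-imperfect graphs.**
There is a sequence of graphs `G_0, G_1, …`, `G_m` with exactly `4 m + 13` vertices (so pairwise
not isomorphic), all minimally `(ir, γ)`-imperfect, with `ir(G_m) ≤ 3` and `γ(G_m) ≥ 4`. -/
theorem result : ∃ G : ∀ m : ℕ, SimpleGraph (Fin (4 * m + 13)),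
    (∀ m, MinimallyImperfect (G m) ∧ ir (G m) ≤ 3 ∧ 4 ≤ gamma (G m)) ∧
    ∀ m m', m ≠ m' → IsEmpty (G m ≃g G m') := by
  classical
  have hcard : ∀ m : ℕ, Fintype.card (W (ZMod (m + 1) × Fin 4)) = 4 * m + 13 := by
    intro m
    rw [card_W, Fintype.card_prod, ZMod.card, Fintype.card_fin]
    ring
  have hequiv : ∀ m : ℕ, Nonempty (Fin (4 * m + 13) ≃ W (ZMod (m + 1) × Fin 4)) := by
    intro m
    rw [← hcard]
    exact ⟨(Fintype.equivFin _).symm⟩
  have e : ∀ m : ℕ, Fin (4 * m + 13) ≃ W (ZMod (m + 1) × Fin 4) :=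
    fun m => Classical.choice (hequiv m)
  refine ⟨fun m => (GG (conc m)).comap (e m), ?_, ?_⟩
  · intro m
    have hgood : ∀ S : Finset (W (ZMod (m + 1) × Fin 4)), S ⊂ Finset.univ →
        Good (GG (conc m)) S :=
      Irr56.good_of
        (fun S _ a b hab hX => Irr56.h2 (Irr56.conc m) S a b hab hX)
        (fun S hS X hX hc hiso => Irr56.h3_fam (Irr56.conc m) S hS X hX hc hiso)
        (fun S _ hS => Irr56.h4 (Irr56.conc m) S hS)
    -- the embedding of the whole graph
    let φ : (GG (conc m)).comap (e m) ↪g GG (conc m) := SimpleGraph.Embedding.comap (e m).toEmbedding _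
    have hφ : ∀ x, φ x = e m x := fun _ => rfl
    have hbad : ∀ (S : Set (Fin (4 * m + 13))), S = Set.univ →
        ir (((GG (conc m)).comap (e m)).induce S) ≤ 3 ∧
        3 < gamma (((GG (conc m)).comap (e m)).induce S) := by
      rintro S rfl
      let ψ : ((GG (conc m)).comap (e m)).induce Set.univ ↪g GG (conc m) :=
        (SimpleGraph.Embedding.induce Set.univ).trans φ
      have hU : (Finset.univ : Finset (Set.univ : Set (Fin (4 * m + 13)))).map ψ.toEmbedding =
          Finset.univ := by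
        rw [Finset.eq_univ_iff_forall]
        intro w
        rw [Finset.mem_map]
        refine ⟨⟨(e m).symm w, Set.mem_univ _⟩, Finset.mem_univ _, ?_⟩
        show e m ((e m).symm w) = w
        exact (e m).apply_symm_apply w
      have hpl := planted (conc m) ⟨(0, 0)⟩
      have hdc := dom_card (conc m) ⟨(0, 0)⟩
      have h4 : ({W.k0, W.k1, W.k2} : Finset (W (ZMod (m + 1) × Fin 4))).card = 3 := by
        rw [Finset.card_eq_three]
        exact ⟨W.k0, W.k1, W.k2, by simp, by simp, by simp, rfl⟩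
      have h5 := bad_of ψ (X := {W.k0, W.k1, W.k2}) (by rw [hU]; exact hpl) (by
        intro D hD
        rw [hU] at hD
        rw [h4]
        exact hdc D hD)
      rw [h4] at h5
      exact h5
    have hbad' : ir ((GG (conc m)).comap (e m)) ≤ 3 ∧ 3 < gamma ((GG (conc m)).comap (e m)) := by
      have hU : (Finset.univ : Finset (Fin (4 * m + 13))).map φ.toEmbedding = Finset.univ := by
        rw [Finset.eq_univ_iff_forall]
        intro w
        rw [Finset.mem_map]
        refine ⟨(e m).symm w, Finset.mem_univ _, ?_⟩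
        show e m ((e m).symm w) = w
        exact (e m).apply_symm_apply w
      have hpl := planted (conc m) ⟨(0, 0)⟩
      have hdc := dom_card (conc m) ⟨(0, 0)⟩
      have h4 : ({W.k0, W.k1, W.k2} : Finset (W (ZMod (m + 1) × Fin 4))).card = 3 := by
        rw [Finset.card_eq_three]
        exact ⟨W.k0, W.k1, W.k2, by simp, by simp, by simp, rfl⟩
      have h5 := bad_of φ (X := {W.k0, W.k1, W.k2}) (by rw [hU]; exact hpl) (by
        intro D hD
        rw [hU] at hD
        rw [h4]
        exact hdc D hD)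
      rw [h4] at h5
      exact h5
    refine ⟨⟨?_, ?_⟩, hbad'.1, hbad'.2⟩
    · intro hperf
      have h1 : ir (((GG (conc m)).comap (e m)).induce Set.univ) =
          gamma (((GG (conc m)).comap (e m)).induce Set.univ) := hperf Set.univ
      have h2 := hbad Set.univ rfl
      omega
    · intro S hS
      let ψ : ((GG (conc m)).comap (e m)).induce S ↪g GG (conc m) :=
        (SimpleGraph.Embedding.induce S).trans φ
      apply eq_of_good' ψ
      apply hgood
      rw [Finset.ssubset_univ_iff]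
      intro hc
      apply hS
      rw [Set.eq_univ_iff_forall]
      intro a
      have h1 : e m a ∈ (Finset.univ : Finset S).map ψ.toEmbedding := by
        rw [hc]
        exact Finset.mem_univ _
      rw [Finset.mem_map] at h1
      obtain ⟨b, -, hb⟩ := h1
      have h2 : e m b.1 = e m a := hb
      rw [← (e m).injective h2]
      exact b.2
  · intro m m' hne
    refine ⟨fun f => hne ?_⟩
    have := Fintype.card_congr f.toEquiv
    simp only [Fintype.card_fin] at this
    omega

end Pool.Agent.Results.MP_b725e3_co.InfinitelyMany
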